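import Pool.Agent.H717.NL.Stmts2

set_option autoImplicit false

/-!
# MP_26b317_lc, Q2: Weyl's inequality (helper249, for helper717)
-/

open Polynomial Matrix

namespace Pool.Agent.H249.NL.Weyl

open Pool.Agent.H717.NL

variable {n : ℕ}

theorem quad {M : Matrix (Fin n) (Fin n) ℝ} {l : Fin n → ℝ} {u : Fin n → Fin n → ℝ}
    (hu : ON u) (hM : ∀ i, M.mulVec (u i) = l i • u i) (y : Fin n → ℝ) :
    qf M y y = ∑ j, l j * (u j ⬝ᵥ y) ^ 2 ∧ y ⬝ᵥ y = ∑ j, (u j ⬝ᵥ y) ^ 2 := by
  have hU : Matrix.of u * (Matrix.of u)ᵀ = 1 := by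
    ext i j
    rw [Matrix.mul_apply, Matrix.one_apply, ← hu i j]
    rfl
  have hU' : (Matrix.of u)ᵀ * Matrix.of u = 1 := mul_eq_one_comm.1 hU
  have hy : y = ∑ j, (u j ⬝ᵥ y) • u j := by
    have h1 : (Matrix.of u)ᵀ *ᵥ (Matrix.of u *ᵥ y) = y := by
      rw [Matrix.mulVec_mulVec, hU', Matrix.one_mulVec]
    funext t
    have h2 := congrFun h1 t
    rw [← h2, Finset.sum_apply]
    simp only [Matrix.mulVec, dotProduct, Matrix.transpose_apply, Matrix.of_apply, Pi.smul_apply,
      smul_eq_mul]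
    apply Finset.sum_congr rfl
    intro j _
    rw [mul_comm]
  have hMy : M.mulVec y = ∑ j, (u j ⬝ᵥ y) • (l j • u j) := by
    conv_lhs => rw [hy]
    rw [Matrix.mulVec_sum]
    apply Finset.sum_congr rfl
    intro j _
    rw [Matrix.mulVec_smul, hM]
  constructor
  · unfold qf
    rw [hMy, dotProduct_sum]
    apply Finset.sum_congr rfl
    intro j _
    rw [dotProduct_smul, dotProduct_smul, dotProduct_comm y, smul_eq_mul, smul_eq_mul]
    ring
  · conv_lhs =>
      rhs
      rw [hy]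
    rw [dotProduct_sum]
    apply Finset.sum_congr rfl
    intro j _
    rw [dotProduct_smul, dotProduct_comm y, smul_eq_mul]
    ring

/-- A nonzero vector orthogonal to the first vectors of one family and the last vectors of another. -/
theorem exists_y (u u' : Fin n → Fin n → ℝ) (i : Fin n) :
    ∃ y : Fin n → ℝ, y ≠ 0 ∧ (∀ j, i < j → u j ⬝ᵥ y = 0) ∧ ∀ j, j < i → u' j ⬝ᵥ y = 0 := by
  let T : (Fin n → ℝ) →ₗ[ℝ] (Fin n → ℝ) :=
    { toFun := fun y j => if j < i then u' j ⬝ᵥ y else if i < j then u j ⬝ᵥ y else 0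
      map_add' := by
        intro y z
        funext j
        simp only [Pi.add_apply]
        split_ifs
        · rw [dotProduct_add]
        · rw [dotProduct_add]
        · rw [add_zero]
      map_smul' := by
        intro c y
        funext j
        simp only [Pi.smul_apply, RingHom.id_apply]
        split_ifs
        · rw [dotProduct_smul]
        · rw [dotProduct_smul]
        · rw [smul_zero] }
  by_contra hcon
  push Not at hcon
  have hinj : Function.Injective T := by
    rw [← LinearMap.ker_eq_bot, LinearMap.ker_eq_bot']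
    intro y hy
    by_contra hne
    obtain ⟨j, h1, h2⟩ := hcon y hne (by
      intro j hj
      have h3 : (if j < i then u' j ⬝ᵥ y else if i < j then u j ⬝ᵥ y else 0) = 0 := congrFun hy j
      rwa [if_neg (not_lt.2 hj.le), if_pos hj] at h3)
    apply h2
    have h3 : (if j < i then u' j ⬝ᵥ y else if i < j then u j ⬝ᵥ y else 0) = 0 := congrFun hy j
    rwa [if_pos h1] at h3
  obtain ⟨y, hy⟩ := (LinearMap.injective_iff_surjective.1 hinj) (Pi.single i 1)
  have h3 : (if i < i then u' i ⬝ᵥ y else if i < i then u i ⬝ᵥ y else 0) =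
      (Pi.single i 1 : Fin n → ℝ) i := congrFun hy i
  rw [if_neg (lt_irrefl i), if_neg (lt_irrefl i), Pi.single_eq_same] at h3
  exact zero_ne_one h3

theorem isSymm_add {M : Matrix (Fin n) (Fin n) ℝ} (hM : M.IsSymm) (x : Fin n → ℝ) (s : ℝ) :
    (M + s • Matrix.diagonal x).IsSymm :=
  hM.add ((Matrix.isSymm_diagonal x).smul s)

theorem side (h : S_basis) (M : Matrix (Fin n) (Fin n) ℝ) (x : Fin n → ℝ) (s : ℝ)
    (l l' : Fin n → ℝ) (hM : M.IsSymm) (hx : ∀ i, |x i| ≤ 1) (hl : Spec M l)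
    (hl' : Spec (M + s • Matrix.diagonal x) l') (i : Fin n) : l' i ≤ l i + |s| := by
  obtain ⟨u, hu, hMu⟩ := h n M l hM hl
  obtain ⟨u', hu', hMu'⟩ := h n _ l' (isSymm_add hM x s) hl'
  obtain ⟨y, hy0, hy1, hy2⟩ := exists_y u u' i
  obtain ⟨q1, q2⟩ := quad hu hMu y
  obtain ⟨q1', q2'⟩ := quad hu' hMu' y
  have hpos : 0 < y ⬝ᵥ y := by
    have h1 : 0 ≤ y ⬝ᵥ y := Finset.sum_nonneg fun j _ => mul_self_nonneg (y j)
    rcases h1.lt_or_eq with h2 | h2
    · exact h2
    · exact absurd (dotProduct_self_eq_zero.1 h2.symm) hy0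
  have b1 : qf M y y ≤ l i * (y ⬝ᵥ y) := by
    rw [q1, q2, Finset.mul_sum]
    apply Finset.sum_le_sum
    intro j _
    rcases le_or_gt j i with hj | hj
    · exact mul_le_mul_of_nonneg_right (hl.1 hj) (sq_nonneg _)
    · rw [hy1 j hj]
      simp
  have b2 : l' i * (y ⬝ᵥ y) ≤ qf (M + s • Matrix.diagonal x) y y := by
    rw [q1', q2', Finset.mul_sum]
    apply Finset.sum_le_sum
    intro j _
    rcases le_or_gt i j with hj | hj
    · exact mul_le_mul_of_nonneg_right (hl'.1 hj) (sq_nonneg _)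
    · rw [hy2 j hj]
      simp
  have b3 : qf (M + s • Matrix.diagonal x) y y = qf M y y + s * ∑ p, x p * (y p) ^ 2 := by
    unfold qf
    rw [Matrix.add_mulVec, dotProduct_add, Matrix.smul_mulVec, dotProduct_smul, smul_eq_mul]
    congr 2
    unfold dotProduct
    apply Finset.sum_congr rfl
    intro p _
    rw [Matrix.mulVec_diagonal]
    ring
  have b4 : |∑ p, x p * (y p) ^ 2| ≤ y ⬝ᵥ y := by
    refine (Finset.abs_sum_le_sum_abs _ _).trans ?_
    apply Finset.sum_le_sum
    intro p _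
    rw [abs_mul, abs_of_nonneg (sq_nonneg (y p))]
    nlinarith [hx p, sq_nonneg (y p)]
  have b5 : s * ∑ p, x p * (y p) ^ 2 ≤ |s| * (y ⬝ᵥ y) := by
    refine (le_abs_self _).trans ?_
    rw [abs_mul]
    exact mul_le_mul_of_nonneg_left b4 (abs_nonneg s)
  have b6 : l' i * (y ⬝ᵥ y) ≤ (l i + |s|) * (y ⬝ᵥ y) := by
    rw [b3] at b2
    linarith
  exact le_of_mul_le_mul_right b6 hpos

theorem t_weyl (h : S_basis) : S_weyl := by
  intro n M x s l l' hM hx hl hl' i
  have h1 := side h M x s l l' hM hx hl hl' i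
  have h2 := side h (M + s • Matrix.diagonal x) x (-s) l' l (isSymm_add hM x s) hx hl'
    (by
      have e : M + s • Matrix.diagonal x + (-s) • Matrix.diagonal x = M := by
        rw [neg_smul, add_neg_cancel_right]
      rw [e]
      exact hl) i
  rw [abs_neg] at h2
  rw [abs_le]
  constructor
  · linarith
  · linarith

end Pool.Agent.H249.NL.Weyl
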